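import Pool.Agent.TH749.PJ.Stm
import Pool.Agent.W601.Curve.Step

/-!
Lifting of separation of jets along the projection of a surface in `P³` from `(0 : 0 : 0 : 1)`.
-/

set_option autoImplicit false

namespace Pool.Agent.TH749.PJ

open MvPolynomial Pool.Agent.W607 Pool.Agent.W601.Curve

/-- forms in `x_0, x_1, x_2` as forms in `x_0, …, x_3` -/
noncomputable def io : MvPolynomial (Fin (2 + 1)) ℂ →ₐ[ℂ] MvPolynomial (Fin (3 + 1)) ℂ :=
  rename Fin.castSucc

theorem io_X (k : Fin (2 + 1)) : io (X k) = X k.castSucc := rename_X _ _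

theorem io_C (c : ℂ) : io (C c) = C c := rename_C _ _

theorem io_hom {g : MvPolynomial (Fin (2 + 1)) ℂ} {e : ℕ} (hg : g.IsHomogeneous e) :
    (io g).IsHomogeneous e := hg.rename_isHomogeneous

/-- elements with a representative `∑_{k < d} b_k x_3^k` modulo `J` -/
def ND (J : Ideal (MvPolynomial (Fin (3 + 1)) ℂ)) (d : ℕ) (h : MvPolynomial (Fin (3 + 1)) ℂ) :
    Prop :=
  ∃ b : Fin d → MvPolynomial (Fin (2 + 1)) ℂ, h - ∑ k, io (b k) * X 3 ^ (k : ℕ) ∈ J

variable {J : Ideal (MvPolynomial (Fin (3 + 1)) ℂ)} {d : ℕ}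

theorem ND.add {h h' : MvPolynomial (Fin (3 + 1)) ℂ} (H : ND J d h) (H' : ND J d h') :
    ND J d (h + h') := by
  obtain ⟨b, hb⟩ := H
  obtain ⟨b', hb'⟩ := H'
  refine ⟨fun k => b k + b' k, ?_⟩
  have h1 : h + h' - ∑ k, io (b k + b' k) * X 3 ^ (k : ℕ) =
      (h - ∑ k, io (b k) * X 3 ^ (k : ℕ)) + (h' - ∑ k, io (b' k) * X 3 ^ (k : ℕ)) := by
    simp only [map_add, add_mul, Finset.sum_add_distrib]
    ring
  rw [h1]
  exact add_mem hb hb'

theorem ND.zero : ND J d 0 := by
  refine ⟨fun _ => 0, ?_⟩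
  simp

theorem ND.sum {ι : Type*} (s : Finset ι) (f : ι → MvPolynomial (Fin (3 + 1)) ℂ)
    (h : ∀ i ∈ s, ND J d (f i)) : ND J d (∑ i ∈ s, f i) := by
  classical
  induction s using Finset.induction_on with
  | empty => simpa using ND.zero
  | insert a s ha ih =>
    rw [Finset.sum_insert ha]
    exact (h a (Finset.mem_insert_self _ _)).add
      (ih fun i hi => h i (Finset.mem_insert_of_mem hi))

theorem ND.mul_io {h : MvPolynomial (Fin (3 + 1)) ℂ} (H : ND J d h)
    (g : MvPolynomial (Fin (2 + 1)) ℂ) : ND J d (io g * h) := by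
  obtain ⟨b, hb⟩ := H
  refine ⟨fun k => g * b k, ?_⟩
  have h1 : io g * h - ∑ k, io (g * b k) * X 3 ^ (k : ℕ) =
      io g * (h - ∑ k, io (b k) * X 3 ^ (k : ℕ)) := by
    rw [mul_sub, Finset.mul_sum]
    congr 1
    refine Finset.sum_congr rfl fun k _ => ?_
    rw [map_mul, mul_assoc]
  rw [h1]
  exact Ideal.mul_mem_left _ _ hb

theorem ND.of_mem {h : MvPolynomial (Fin (3 + 1)) ℂ} (H : h ∈ J) : ND J d h := by
  refine ⟨fun _ => 0, ?_⟩
  simpa using H

theorem ND.pow {k : ℕ} (hk : k < d) : ND J d (X 3 ^ k) := by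
  classical
  refine ⟨Pi.single ⟨k, hk⟩ 1, ?_⟩
  rw [Finset.sum_eq_single ⟨k, hk⟩]
  · rw [Pi.single_eq_same, map_one, one_mul, sub_self]
    exact zero_mem _
  · intro j _ hj
    rw [Pi.single_eq_of_ne hj, map_zero, zero_mul]
  · intro h
    exact absurd (Finset.mem_univ _) h

/-- monomials of low degree in `x_3` -/
theorem ND.mon {α : Fin (3 + 1) →₀ ℕ} (hα : α 3 < d) (c : ℂ) : ND J d (monomial α c) := by
  have h1 : (monomial α c : MvPolynomial (Fin (3 + 1)) ℂ) =
      io (C c * X 0 ^ α 0 * X 1 ^ α 1 * X 2 ^ α 2) * X 3 ^ α 3 := by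
    rw [monomial_eq, Finsupp.prod_fintype _ _ (fun i => pow_zero _), Fin.prod_univ_four,
      map_mul, map_mul, map_mul, map_pow, map_pow, map_pow, io_C, io_X, io_X, io_X]
    show C c * (X 0 ^ α 0 * X 1 ^ α 1 * X 2 ^ α 2 * X 3 ^ α 3) =
      C c * X 0 ^ α 0 * X 1 ^ α 1 * X 2 ^ α 2 * X 3 ^ α 3
    ring
  rw [h1]
  exact (ND.pow hα).mul_io _

theorem coeff_top {F : MvPolynomial (Fin (3 + 1)) ℂ} (hF : F.IsHomogeneous d) :
    eval ![0, 0, 0, 1] F = coeff (Finsupp.single 3 d) F := by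
  classical
  rw [eval_eq']
  by_cases hs : Finsupp.single 3 d ∈ F.support
  · rw [Finset.sum_eq_single (Finsupp.single (3 : Fin (3 + 1)) d)]
    · rw [Fin.prod_univ_four]
      simp [Finsupp.single_apply]
    · intro α hα hne
      have hdeg : ∑ i, α i = d := by
        have h1 := hF (mem_support_iff.1 hα)
        rw [← h1, ← Finsupp.degree_eq_sum, Finsupp.degree_eq_weight_one]
        rfl
      rw [Fin.sum_univ_four] at hdeg
      have h2 : α 0 ≠ 0 ∨ α 1 ≠ 0 ∨ α 2 ≠ 0 := by
        by_contra hcon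
        push Not at hcon
        apply hne
        ext i
        fin_cases i
        · simpa [Finsupp.single_apply] using hcon.1
        · simpa [Finsupp.single_apply] using hcon.2.1
        · simpa [Finsupp.single_apply] using hcon.2.2
        · simp only [Finsupp.single_apply]
          simp
          omega
      rw [Fin.prod_univ_four]
      rcases h2 with h2 | h2 | h2 <;> simp [h2]
    · intro h
      exact absurd hs h
  · rw [mem_support_iff, not_not] at hs
    rw [hs]
    refine Finset.sum_eq_zero fun α hα => ?_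
    have hne : α ≠ Finsupp.single 3 d := by
      rintro rfl
      exact (mem_support_iff.1 hα) hs
    have hdeg : ∑ i, α i = d := by
      have h1 := hF (mem_support_iff.1 hα)
      rw [← h1, ← Finsupp.degree_eq_sum, Finsupp.degree_eq_weight_one]
      rfl
    rw [Fin.sum_univ_four] at hdeg
    have h2 : α 0 ≠ 0 ∨ α 1 ≠ 0 ∨ α 2 ≠ 0 := by
      by_contra hcon
      push Not at hcon
      apply hne
      ext i
      fin_cases i
      · simpa [Finsupp.single_apply] using hcon.1
      · simpa [Finsupp.single_apply] using hcon.2.1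
      · simpa [Finsupp.single_apply] using hcon.2.2
      · simp only [Finsupp.single_apply]
        simp
        omega
    rw [Fin.prod_univ_four]
    rcases h2 with h2 | h2 | h2 <;> simp [h2]

theorem ND.top {F : MvPolynomial (Fin (3 + 1)) ℂ} (hF : F.IsHomogeneous d)
    (h0 : eval ![0, 0, 0, 1] F ≠ 0) (hFJ : F ∈ J) : ND J d (X 3 ^ d) := by
  classical
  rw [coeff_top hF] at h0
  set c := coeff (Finsupp.single 3 d) F with hc
  have h1 : ND J d (F - C c * X 3 ^ d) := by
    have h2 : F - C c * X 3 ^ d = ∑ α ∈ F.support.erase (Finsupp.single 3 d),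
        monomial α (coeff α F) := by
      have h3 : (C c * X 3 ^ d : MvPolynomial (Fin (3 + 1)) ℂ) =
          monomial (Finsupp.single 3 d) (coeff (Finsupp.single 3 d) F) := by
        rw [← hc, monomial_eq]
        congr 1
        exact (Finsupp.prod_single_index (h := fun n e =>
          (X n : MvPolynomial (Fin (3 + 1)) ℂ) ^ e) (pow_zero _)).symm
      have h4 : Finsupp.single 3 d ∈ F.support := mem_support_iff.2 h0
      rw [h3, sub_eq_iff_eq_add, Finset.sum_erase_add _ _ h4]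
      exact F.as_sum
    rw [h2]
    refine ND.sum _ _ fun α hα => ND.mon ?_ _
    have hα1 := Finset.ne_of_mem_erase hα
    have hα2 := Finset.mem_of_mem_erase hα
    have hdeg : ∑ i, α i = d := by
      have h1 := hF (mem_support_iff.1 hα2)
      rw [← h1, ← Finsupp.degree_eq_sum, Finsupp.degree_eq_weight_one]
      rfl
    rw [Fin.sum_univ_four] at hdeg
    by_contra hcon
    push Not at hcon
    apply hα1
    ext i
    fin_cases i
    · simp [Finsupp.single_apply]; omega
    · simp [Finsupp.single_apply]; omega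
    · simp [Finsupp.single_apply]; omega
    · simp [Finsupp.single_apply]; omega
  have h5 : (X 3 ^ d : MvPolynomial (Fin (3 + 1)) ℂ) =
      io (C c⁻¹) * F + io (C (-c⁻¹)) * (F - C c * X 3 ^ d) := by
    have h6 : (C c⁻¹ : MvPolynomial (Fin (3 + 1)) ℂ) * C c = 1 := by
      rw [← C_mul, inv_mul_cancel₀ h0, C_1]
    rw [io_C, io_C, C_neg]
    linear_combination (- (X 3 : MvPolynomial (Fin (3 + 1)) ℂ) ^ d) * h6
  rw [h5]
  exact ((ND.of_mem hFJ).mul_io _).add (h1.mul_io _)

theorem ND.all {F : MvPolynomial (Fin (3 + 1)) ℂ} (hd : 1 ≤ d) (hF : F.IsHomogeneous d)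
    (h0 : eval ![0, 0, 0, 1] F ≠ 0) (hFJ : F ∈ J) (h : MvPolynomial (Fin (3 + 1)) ℂ) :
    ND J d h := by
  induction h using MvPolynomial.induction_on with
  | C a =>
    have h1 := (ND.pow (J := J) (d := d) (k := 0) hd).mul_io (C a)
    rw [io_C, pow_zero, mul_one] at h1
    exact h1
  | add p q hp hq => exact hp.add hq
  | mul_X p i hp =>
    rcases Fin.eq_castSucc_or_eq_last i with ⟨k, rfl⟩ | rfl
    · have h1 := hp.mul_io (X k)
      rw [io_X, mul_comm] at h1
      exact h1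
    · obtain ⟨b, hb⟩ := hp
      have h1 : p * X (Fin.last 3) = (p - ∑ k, io (b k) * X 3 ^ (k : ℕ)) * X 3 +
          ∑ k : Fin d, io (b k) * X 3 ^ ((k : ℕ) + 1) := by
        have h2 : ∑ k : Fin d, io (b k) * X 3 ^ ((k : ℕ) + 1) =
            (∑ k : Fin d, io (b k) * X 3 ^ (k : ℕ)) * X 3 := by
          rw [Finset.sum_mul]
          refine Finset.sum_congr rfl fun k _ => ?_
          rw [pow_succ, mul_assoc]
        rw [h2, ← add_mul, sub_add_cancel]
        rfl
      rw [h1]
      refine (ND.of_mem (Ideal.mul_mem_right _ _ hb)).add (ND.sum _ _ fun k _ => ?_)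
      rcases Nat.lt_or_ge ((k : ℕ) + 1) d with h3 | h3
      · exact (ND.pow h3).mul_io _
      · have h4 : (k : ℕ) + 1 = d := by have := k.2; omega
        rw [h4]
        exact (ND.top hF h0 hFJ).mul_io _

theorem io_mw (p : Fin (2 + 1) → ℂ) (w : Fin (3 + 1) → ℂ) (h : ∀ k : Fin (2 + 1), w k.castSucc = p k)
    (s : ℕ) {g : MvPolynomial (Fin (2 + 1)) ℂ}
    (hg : g ∈ (⊥ : Ideal (MvPolynomial (Fin (2 + 1)) ℂ)) ⊔ Ideal.span {X 0 - 1} ⊔ (mw p) ^ s)
    (hJ : X 0 - 1 ∈ J) : io g ∈ J ⊔ (mw w) ^ s := by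
  have h1 : mw p ≤ (mw w).comap io := by
    rw [mw, Ideal.span_le]
    rintro _ ⟨k, rfl⟩
    rw [SetLike.mem_coe, Ideal.mem_comap, map_sub, io_X, io_C, ← h k]
    exact Ideal.subset_span ⟨k.castSucc, rfl⟩
  have h2 : (mw p) ^ s ≤ ((mw w) ^ s).comap io :=
    (Ideal.pow_right_mono h1 s).trans (Ideal.le_comap_pow _ s)
  have h3 : (⊥ : Ideal (MvPolynomial (Fin (2 + 1)) ℂ)) ⊔ Ideal.span {X 0 - 1} ⊔ (mw p) ^ s ≤
      (J ⊔ (mw w) ^ s).comap io := by
    refine sup_le (sup_le bot_le ?_) (h2.trans (Ideal.comap_mono le_sup_right))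
    rw [Ideal.span_singleton_le_iff_mem, Ideal.mem_comap, map_sub, map_one, io_X]
    exact Ideal.mem_sup_left hJ
  exact h3 hg

theorem t_P3 : S_P3 := by
  classical
  intro d n E s F hd hF h0 P hP hsep t ht htF
  set J : Ideal (MvPolynomial (Fin (3 + 1)) ℂ) := Ideal.span {F} ⊔ Ideal.span {X 0 - 1} with hJ
  have hFJ : F ∈ J := Ideal.mem_sup_left (Ideal.mem_span_singleton_self _)
  have hXJ : (X 0 - 1 : MvPolynomial (Fin (3 + 1)) ℂ) ∈ J :=
    Ideal.mem_sup_right (Ideal.mem_span_singleton_self _)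
  let w : Fin n → Fin d → Fin (3 + 1) → ℂ := fun i j => ![1, P i 0, P i 1, t i j]
  have hw : ∀ i j (k : Fin (2 + 1)), w i j k.castSucc = (![1, P i 0, P i 1] : Fin (2 + 1) → ℂ) k := by
    intro i j k
    fin_cases k <;> rfl
  have main : ∀ i j (f : MvPolynomial (Fin (3 + 1)) ℂ), ∃ G : MvPolynomial (Fin (3 + 1)) ℂ,
      G.IsHomogeneous (E + d - 1) ∧ G - f ∈ J ⊔ (mw (w i j)) ^ s ∧
      ∀ i' j', (i' ≠ i ∨ j' ≠ j) → G ∈ J ⊔ (mw (w i' j')) ^ s := by
    intro i j f
    -- CRT
    have hcop : Pairwise fun j j' => IsCoprime (J ⊔ (mw (w i j)) ^ s) (J ⊔ (mw (w i j')) ^ s) := by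
      intro j j' hjj
      have hne : w i j ≠ w i j' := by
        intro h
        apply hjj
        apply ht i
        have := congrFun h 3
        exact this
      have h1 : IsCoprime ((mw (w i j)) ^ s) ((mw (w i j')) ^ s) :=
        (coprime_mw (w i j) (w i j') hne).pow
      rw [Ideal.isCoprime_iff_sup_eq] at h1 ⊢
      rw [eq_top_iff, ← h1]
      exact sup_le_sup le_sup_right le_sup_right
    obtain ⟨h, hh⟩ := Ideal.pi_quotient_surjective hcop
      (fun j' => Ideal.Quotient.mk _ (if j' = j then f else 0))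
    have hh1 : h - f ∈ J ⊔ (mw (w i j)) ^ s := by
      have h2 := hh j
      rw [if_pos rfl, Ideal.Quotient.eq] at h2
      exact h2
    have hh2 : ∀ j', j' ≠ j → h ∈ J ⊔ (mw (w i j')) ^ s := by
      intro j' hj'
      have h2 := hh j'
      rw [if_neg hj', Ideal.Quotient.eq, sub_zero] at h2
      exact h2
    obtain ⟨b, hb⟩ := ND.all hd hF h0 hFJ h
    choose g hg hg1 hg2 using fun k => hsep i (b k)
    refine ⟨∑ k : Fin d, io (g k) * X 0 ^ (d - 1 - (k : ℕ)) * X 3 ^ (k : ℕ), ?_, ?_, ?_⟩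
    · refine IsHomogeneous.sum _ _ _ fun k _ => ?_
      have h1 := ((io_hom (hg k)).mul (isHomogeneous_X_pow (R := ℂ) (0 : Fin (3 + 1))
        (d - 1 - (k : ℕ)))).mul (isHomogeneous_X_pow (R := ℂ) (3 : Fin (3 + 1)) (k : ℕ))
      have h2 : E + (d - 1 - (k : ℕ)) + (k : ℕ) = E + d - 1 := by have := k.2; omega
      rwa [h2] at h1
    all_goals
      have hGh : ∀ j', (∑ k : Fin d, io (g k) * X 0 ^ (d - 1 - (k : ℕ)) * X 3 ^ (k : ℕ)) - h ∈
          J ⊔ (mw (w i j')) ^ s := by
        intro j'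
        have h1 : (∑ k : Fin d, io (g k) * X 0 ^ (d - 1 - (k : ℕ)) * X 3 ^ (k : ℕ)) - h =
            (∑ k : Fin d, io (g k) * (X 0 ^ (d - 1 - (k : ℕ)) - 1) * X 3 ^ (k : ℕ)) +
            (∑ k : Fin d, io (g k - b k) * X 3 ^ (k : ℕ)) -
            (h - ∑ k : Fin d, io (b k) * X 3 ^ (k : ℕ)) := by
          simp only [map_sub, mul_sub, sub_mul, Finset.sum_sub_distrib, mul_one]
          ring
        rw [h1]
        refine sub_mem (add_mem (Ideal.mem_sup_left ?_) ?_) (Ideal.mem_sup_left hb)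
        · refine Ideal.sum_mem _ fun k _ => Ideal.mul_mem_right _ _ (Ideal.mul_mem_left _ _ ?_)
          obtain ⟨c, hc⟩ := sub_one_dvd_pow_sub_one (X 0 : MvPolynomial (Fin (3 + 1)) ℂ)
            (d - 1 - (k : ℕ))
          rw [hc]
          exact Ideal.mul_mem_right _ _ hXJ
        · exact Ideal.sum_mem _ fun k _ => Ideal.mul_mem_right _ _
            (io_mw _ _ (hw i j') s (hg1 k) hXJ)
    · have h1 := add_mem (hGh j) hh1
      rwa [sub_add_sub_cancel] at h1
    · intro i' j' hij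
      by_cases hi : i' = i
      · subst hi
        have hj : j' ≠ j := by
          rcases hij with h1 | h1
          · exact absurd rfl h1
          · exact h1
        have h1 := add_mem (hGh j') (hh2 j' hj)
        rwa [sub_add_cancel] at h1
      · refine Ideal.sum_mem _ fun k _ => Ideal.mul_mem_right _ _ (Ideal.mul_mem_right _ _ ?_)
        exact io_mw _ _ (hw i' j') s (hg2 k i' hi) hXJ
  intro q f
  obtain ⟨G, hG, hG1, hG2⟩ := main (finProdFinEquiv.symm q).1 (finProdFinEquiv.symm q).2 f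
  refine ⟨G, hG, hG1, fun q' hq' => hG2 _ _ ?_⟩
  by_contra hcon
  push Not at hcon
  apply hq'
  apply finProdFinEquiv.symm.injective
  exact Prod.ext hcon.1 hcon.2

end Pool.Agent.TH749.PJ
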