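import Pool.Agent.TH749.PJ.P1
import Pool.Agent.TH749.PJ.P3
import Pool.Agent.TH749.FS.Main
import Pool.Agent.W607.General
import Pool.Agent.TH623.PJ.P2
import Pool.Agent.TH623.PJ.Glue

/-!
Fat points on an integral surface of degree `d` in `P³`, at `n d` general points: a window of
bounded length.
-/

set_option autoImplicit false

namespace Pool.Agent.TH749.PJ

open MvPolynomial Pool.Agent.W607 Pool.Agent.W601.Curve Pool.Agent.TH749.FS Filter Topology

section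
variable {d r : ℕ} {F : MvPolynomial (Fin (3 + 1)) ℂ}

/-- the multiplicities of a section of `O(e)`, smoothness at the points only -/
theorem mult_le' (hF : F.IsHomogeneous d) (hirr : Irreducible F)
    {w : Fin r → Fin (3 + 1) → ℂ} (hwℓ : ∀ q, eval (w q) (X 0 : MvPolynomial (Fin (3 + 1)) ℂ) = 1)
    (hwF : ∀ q, eval (w q) F = 0) (hsm : ∀ q, ∃ i, eval (w q) (pderiv i F) ≠ 0)
    {E0 k0 : ℕ} (hE0 : 1 ≤ E0)
    (hsep : Sep (Ideal.span {F}) (X 0) E0 (k0 + 1) w) (hk0 : 1 ≤ k0)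
    {e : ℕ} {m : Fin r → ℕ} {G : MvPolynomial (Fin (3 + 1)) ℂ} (hG : G.IsHomogeneous e)
    (hGP : G ∉ Ideal.span {F}) (hGm : ∀ q, G ∈ fatI F (X 0) (w q) (m q)) :
    k0 * ∑ q, m q ≤ d * e * E0 := by
  classical
  have hF0 : F ≠ 0 := hirr.ne_zero
  have hℓ : (X 0 : MvPolynomial (Fin (3 + 1)) ℂ).IsHomogeneous 1 := isHomogeneous_X _ _
  have hP : (Ideal.span {F}).IsPrime := (Ideal.span_singleton_prime hF0).2 hirr.prime
  have hlen : ∀ q j, Module.finrank ℂ (MvPolynomial (Fin (3 + 1)) ℂ ⧸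
      (Ideal.span {F} ⊔ Ideal.span {X 0 - 1} ⊔ (mw (w q)) ^ j)) = (j + 1).choose 2 := fun q j =>
    finrank_local hF hℓ (hwℓ q) (hwF q) (hsm q) j
  by_contra hcon
  push Not at hcon
  set C : ℝ := (d : ℝ) * e * (4 - d - e) / 2 - ∑ q, (m q : ℝ) +
    ∑ q, (m q : ℝ) * (m q - 1) / 2 with hC
  obtain ⟨a0, ha0⟩ := exists_nat_gt C
  set a : ℕ := max (max a0 (e + d)) (max 1 (∑ q, m q)) with ha
  have hm1 : ∀ q, m q ≤ ∑ q, m q := fun q =>
    Finset.single_le_sum (f := m) (fun _ _ => Nat.zero_le _) (Finset.mem_univ q)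
  have ha1 : a0 ≤ a := (le_max_left _ _).trans (le_max_left _ _)
  have ha2 : e + d ≤ a := (le_max_right _ _).trans (le_max_left _ _)
  have ha3 : 1 ≤ a := (le_max_left _ _).trans (le_max_right _ _)
  have ha4 : ∑ q, m q ≤ a := (le_max_right _ _).trans (le_max_right _ _)
  have hs := Sep.nsmul hsep ha3
  have haE : a ≤ a * E0 := Nat.le_mul_of_pos_right a hE0
  have hak : a ≤ a * k0 := Nat.le_mul_of_pos_right a hk0
  have hms : ∀ q, m q ≤ a * k0 + 1 := fun q => (hm1 q).trans (ha4.trans (by omega))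
  have h1 := count hP hs (show e ≤ a * E0 by omega) hms hG hGP hGm
  simp only [hlen] at h1
  have h2 : (((∑ q : Fin r, (a * k0 + 1 + 1).choose 2) + hilb (Ideal.span {F}) (a * E0 - e) : ℕ) : ℝ)
      ≤ (((∑ q, (a * k0 + 1 - m q + 1).choose 2) + hilb (Ideal.span {F}) (a * E0) : ℕ) : ℝ) := by
    exact_mod_cast h1
  push_cast at h2
  rw [hilb_real hF hF0 (show d ≤ a * E0 by omega),
    hilb_real hF hF0 (show d ≤ a * E0 - e by omega)] at h2
  have h3 : ∀ q, (((a * k0 + 1 - m q + 1).choose 2 : ℕ) : ℝ) =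
      (((a * k0 + 1 + 1).choose 2 : ℕ) : ℝ) - (m q : ℝ) * ((a : ℝ) * k0 + 1) +
        (m q : ℝ) * (m q - 1) / 2 := by
    intro q
    rw [choose2_real, choose2_real, Nat.cast_sub (hms q)]
    push_cast
    ring
  simp only [h3] at h2
  rw [Finset.sum_add_distrib, Finset.sum_sub_distrib, ← Finset.sum_mul,
    Nat.cast_sub (show e ≤ a * E0 by omega)] at h2
  push_cast at h2
  have h4 : ((d * e * E0 + 1 : ℕ) : ℝ) ≤ ((k0 * ∑ q, m q : ℕ) : ℝ) := by exact_mod_cast hcon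
  push_cast at h4
  have h5 : (a : ℝ) ≤ C := by
    have ha' : (0 : ℝ) ≤ a := Nat.cast_nonneg a
    have h6 := mul_le_mul_of_nonneg_left h4 ha'
    rw [hC]
    linarith
  have h6 : (a0 : ℝ) ≤ a := by exact_mod_cast ha1
  linarith

end

/-- the degree of the plane forms used for jets of order `M` -/
noncomputable def EE (n M : ℕ) : ℕ := ⌊√(n : ℝ) * (M + 1)⌋₊ - 2

theorem EE_spec {n : ℕ} (hn : 10 ≤ n) (M : ℕ) : √(n : ℝ) * (M + 1) < (EE n M : ℝ) + 3 ∧
    (EE n M : ℝ) + 2 ≤ √(n : ℝ) * (M + 1) := by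
  have hnR : (10 : ℝ) ≤ n := by exact_mod_cast hn
  have hs3 : (3 : ℝ) < √(n : ℝ) := by
    rw [Real.lt_sqrt (by norm_num)]
    linarith
  have h1 : (3 : ℝ) ≤ √(n : ℝ) * (M + 1) := by
    have : (0 : ℝ) ≤ M := Nat.cast_nonneg M
    nlinarith
  have h2 : 3 ≤ ⌊√(n : ℝ) * (M + 1)⌋₊ := Nat.le_floor (by exact_mod_cast h1)
  have h3 : ((EE n M : ℕ) : ℝ) = (⌊√(n : ℝ) * (M + 1)⌋₊ : ℝ) - 2 := by
    rw [EE, Nat.cast_sub (by omega)]
    norm_num
  have h4 := Nat.lt_floor_add_one (√(n : ℝ) * (M + 1))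
  have h5 := Nat.floor_le (show (0 : ℝ) ≤ √(n : ℝ) * (M + 1) by linarith)
  rw [h3]
  constructor <;> linarith

theorem final {d n : ℕ} (hd : 1 ≤ d) (hn : 10 ≤ n) {F : MvPolynomial (Fin (3 + 1)) ℂ}
    (hF : F.IsHomogeneous d) (hirr : Irreducible F) (h0 : eval ![0, 0, 0, 1] F ≠ 0)
    (hsmx : ∃ x : Fin (3 + 1) → ℂ, x 0 = 1 ∧ eval x F = 0 ∧ eval x (pderiv 3 F) ≠ 0) :
    ∃ H : ℕ → MvPolynomial (Fin (n * d) × Fin (3 + 1)) ℂ,
      (∀ k, ∃ w : Fin (n * d) → Fin (3 + 1) → ℂ, (∀ q, w q 0 = 1 ∧ eval (w q) F = 0) ∧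
        eval (fun p => w p.1 p.2) (H k) ≠ 0) ∧
      ∀ w : Fin (n * d) → Fin (3 + 1) → ℂ, (∀ q, w q 0 = 1 ∧ eval (w q) F = 0) →
        (∀ k, eval (fun p => w p.1 p.2) (H k) ≠ 0) →
        Function.Injective w ∧
        (∀ (e : ℕ) (m : Fin (n * d) → ℕ),
          ser (Ideal.span {F}) (fun q => fatI F (X 0) (w q) (m q)) e ≠ ⊥ →
          ∑ q, (m q : ℝ) ≤ √(n : ℝ) * d * e) ∧
        (∀ (M e : ℕ) (m : Fin (n * d) → ℕ), (∀ q, m q ≤ M) →
          √(n : ℝ) * (M + 1) + d < e + 4 →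
          Module.finrank ℂ (ser (Ideal.span {F}) (fun q => fatI F (X 0) (w q) (m q)) e) +
            ∑ q, (m q + 1).choose 2 = (e + 3).choose 3 - (e + 3 - d).choose 3) := by
  classical
  have hF0 : F ≠ 0 := hirr.ne_zero
  have hℓ : (X 0 : MvPolynomial (Fin (3 + 1)) ℂ).IsHomogeneous 1 := isHomogeneous_X _ _
  have hsepM : ∀ M : ℕ, ∃ w : Fin (n * d) → Fin (3 + 1) → ℂ, (∀ q, w q 0 = 1) ∧
      (∀ q, eval (w q) F = 0) ∧ Sep (Ideal.span {F}) (X 0) (EE n M + d - 1) M w := fun M =>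
    Pool.Agent.TH623.PJ.glue t_P1 Pool.Agent.TH623.PJ.t_P2 t_P3 d n M (EE n M) F hd hF hirr h0 hn
      (EE_spec hn M).1
  choose w0 hw01 hw0F hsep0 using hsepM
  choose H hH0 hH using fun M => Sep.exists_open (hsep0 M)
  let Hs : MvPolynomial (Fin (n * d) × Fin (3 + 1)) ℂ :=
    ∏ q : Fin (n * d), rename (fun i => (q, i)) (pderiv 3 F)
  have hHs : ∀ w : Fin (n * d) → Fin (3 + 1) → ℂ,
      eval (fun p => w p.1 p.2) Hs = ∏ q, eval (w q) (pderiv 3 F) := by
    intro w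
    rw [map_prod]
    refine Finset.prod_congr rfl fun q _ => ?_
    rw [eval_rename]; rfl
  let HH : ℕ → MvPolynomial (Fin (n * d) × Fin (3 + 1)) ℂ := fun k =>
    match k with
    | 0 => Hs
    | M + 1 => H M
  refine ⟨HH, fun k => ?_, fun w hw hHw => ?_⟩
  · cases k with
    | zero =>
      obtain ⟨x, hx0, hxF, hx3⟩ := hsmx
      refine ⟨fun _ => x, fun _ => ⟨hx0, hxF⟩, ?_⟩
      show eval (fun p : Fin (n * d) × Fin (3 + 1) => x p.2) Hs ≠ 0
      rw [show eval (fun p : Fin (n * d) × Fin (3 + 1) => x p.2) Hs =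
        ∏ _q : Fin (n * d), eval x (pderiv 3 F) from hHs (fun _ => x), Finset.prod_ne_zero_iff]
      exact fun q _ => hx3
    | succ M => exact ⟨w0 M, fun q => ⟨hw01 M q, hw0F M q⟩, hH0 M⟩
  · have hwℓ : ∀ q, eval (w q) (X 0 : MvPolynomial (Fin (3 + 1)) ℂ) = 1 := fun q => by
      rw [eval_X]; exact (hw q).1
    have hwF : ∀ q, eval (w q) F = 0 := fun q => (hw q).2
    have hsm : ∀ q, ∃ i, eval (w q) (pderiv i F) ≠ 0 := by
      intro q
      have h2 : eval (fun p => w p.1 p.2) Hs ≠ 0 := hHw 0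
      rw [hHs, Finset.prod_ne_zero_iff] at h2
      exact ⟨3, h2 q (Finset.mem_univ q)⟩
    have hsep : ∀ M, Sep (Ideal.span {F}) (X 0) (EE n M + d - 1) M w := fun M =>
      hH M w (hHw (M + 1))
    have hwI : ∀ q, ∀ f ∈ Ideal.span {F}, eval (w q) f = 0 := by
      intro q f hf
      obtain ⟨g, rfl⟩ := Ideal.mem_span_singleton'.1 hf
      rw [map_mul, hwF q, mul_zero]
    refine ⟨Pool.Agent.W607.Sep.injective one_ne_zero (hsep 1) hwℓ hwI, fun e m hne => ?_, fun M e m hmM hMe => ?_⟩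
    · obtain ⟨x, hx, hx0⟩ := Submodule.exists_mem_ne_zero_of_ne_bot hne
      obtain ⟨G, ⟨hG1, hG2⟩, rfl⟩ := hx
      have hGP : G ∉ Ideal.span {F} := fun h => hx0 (Ideal.Quotient.eq_zero_iff_mem.2 h)
      have hG2' : ∀ q, G ∈ fatI F (X 0) (w q) (m q) := fun q => (Submodule.mem_iInf _).1 hG2 q
      have key : ∀ k : ℕ, ((k : ℝ) + 1) * ∑ q, (m q : ℝ) ≤
          d * e * (√(n : ℝ) * (k + 3) + d) := by
        intro k
        have h1 := EE_spec hn (k + 2)
        have h2 : 1 ≤ EE n (k + 2) + d - 1 + 1 := by omega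
        have h3 : Sep (Ideal.span {F}) (X 0) (EE n (k + 2) + d - 1 + 1) (k + 1 + 1) w :=
          Sep.raise hℓ (hsep (k + 2)) (Nat.le_succ _)
        have h4 := mult_le' hF hirr hwℓ hwF hsm h2 h3 (Nat.le_add_left 1 k)
          ((mem_homogeneousSubmodule _ _).1 hG1) hGP hG2'
        have h5 : (((k + 1) * ∑ q, m q : ℕ) : ℝ) ≤ ((d * e * (EE n (k + 2) + d - 1 + 1) : ℕ) : ℝ) := by
          exact_mod_cast h4
        have h6 : EE n (k + 2) + d - 1 + 1 = EE n (k + 2) + d := by omega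
        rw [h6] at h5
        push_cast at h5 h1
        refine h5.trans ?_
        have h7 : (0 : ℝ) ≤ (d : ℝ) * e := by positivity
        refine mul_le_mul_of_nonneg_left ?_ h7
        linarith [h1.2]
      -- limit
      by_contra hcon
      push Not at hcon
      set A : ℝ := √(n : ℝ) * d * e with hA
      set B : ℝ := d * e * (2 * √(n : ℝ) + d) with hB
      obtain ⟨k, hk⟩ := exists_nat_gt (B / ((∑ q, (m q : ℝ)) - A))
      have hpos : 0 < (∑ q, (m q : ℝ)) - A := by linarith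
      rw [div_lt_iff₀ hpos] at hk
      have h1 := key k
      have h2 : (d : ℝ) * e * (√(n : ℝ) * (k + 3) + d) = (k + 1) * A + B := by
        rw [hA, hB]; ring
      rw [h2] at h1
      nlinarith
    · have h1 := EE_spec hn M
      have h2 : EE n M + d - 1 ≤ e := by
        have h3 : ((EE n M + d : ℕ) : ℝ) < ((e + 2 : ℕ) : ℝ) := by
          push_cast
          linarith [h1.2]
        have h4 : EE n M + d < e + 2 := by exact_mod_cast h3
        omega
      have hsepe : Sep (Ideal.span {F}) (X 0) e M w := Sep.raise hℓ (hsep M) h2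
      have h3 := finrank_ser_of_sep hsepe (fun q => fatI F (X 0) (w q) (m q))
        (fun q => finite_quot_of_le (w q) (m q) _ le_sup_right) (fun q => sup_pow_anti (hmM q))
      have h4 : ∀ q, Module.finrank ℂ (MvPolynomial (Fin (3 + 1)) ℂ ⧸ fatI F (X 0) (w q) (m q)) =
          (m q + 1).choose 2 := fun q => finrank_local hF hℓ (hwℓ q) (hwF q) (hsm q) (m q)
      simp only [h4] at h3
      rw [hilb_sub hF hF0, ← h3, add_comm]

end Pool.Agent.TH749.PJ
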