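import Pool.Agent.TH749.PJ.P1a
import Pool.Agent.TH641.NW.End2

/-!
Separation of jets at `n ≥ 10` general points of the plane, with a bounded loss.
-/

set_option autoImplicit false

namespace Pool.Agent.TH749.PJ

open MvPolynomial Pool.Agent.W607 H248R5

theorem t_P1 : S_P1 := by
  intro n m E hn hE
  have hnR : (10 : ℝ) ≤ n := by exact_mod_cast hn
  have hs3 : (3 : ℝ) < √(n : ℝ) := by
    rw [Real.lt_sqrt (by norm_num)]
    linarith
  rcases Nat.eq_zero_or_pos m with hm | hm
  · subst hm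
    refine ⟨1, one_ne_zero, fun P _ q f => ⟨0, isHomogeneous_zero _ _ _, ?_, fun q' _ => ?_⟩⟩
    · rw [pow_zero, Ideal.one_eq_top, sup_top_eq]; exact Submodule.mem_top
    · exact zero_mem _
  obtain ⟨F, hF, hF'⟩ := TH641.NW.expDim_uni_win2 (L := ℂ) hn hm
  refine ⟨F.map (algebraMap ℚ ℂ), H932R3.map_ne_zero_of hF, fun P hP => ?_⟩
  rw [MvPolynomial.eval_map] at hP
  have hP' : MvPolynomial.aeval (fun ij : Fin n × Fin 2 => P ij.1 ij.2) F ≠ 0 := hP
  have hwin : min (√(n : ℝ) - 3) (2 / 3 + 1 / (4 * √(n : ℝ))) <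
      (2 * E + 3) - √(n : ℝ) * (2 * m + 1) := by
    refine lt_of_le_of_lt (min_le_left _ _) ?_
    linarith
  have h1 := hF' P hP' E (Or.inr hwin)
  unfold H932R3.ExpDim at h1
  rw [Finset.sum_const, Finset.card_univ, Fintype.card_fin, smul_eq_mul] at h1
  refine sep_of_surj (surj_of_ind ?_)
  rw [Finset.sum_const, Finset.card_univ, Fintype.card_fin, smul_eq_mul]
  have h2 : Module.finrank ℂ ↥(forms (fun _ : Fin n => m) P E) =
      (E + 2).choose 2 - n * (m + 1).choose 2 := h1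
  have h3 : n * (m + 1).choose 2 ≤ (E + 2).choose 2 := by
    have h4 : ∀ a : ℕ, (((a + 1).choose 2 : ℕ) : ℝ) = ((a : ℝ) + 1) * a / 2 := by
      intro a
      rw [Nat.cast_choose_two]
      push_cast
      ring
    have h5 : ((n * (m + 1).choose 2 : ℕ) : ℝ) ≤ (((E + 1) + 1).choose 2 : ℕ) := by
      rw [h4 (E + 1), Nat.cast_mul, h4 m]
      push_cast
      have hss : √(n : ℝ) * √(n : ℝ) = n := Real.mul_self_sqrt (by linarith)
      have hm1 : (1 : ℝ) ≤ m := by exact_mod_cast hm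
      set x := √(n : ℝ) with hx
      have h7 : x * m + (x - 3) ≤ E := by linarith
      have h9 : (n : ℝ) * ((m + 1) * m / 2) = (x * m) * (x * (m + 1)) / 2 := by rw [← hss]; ring
      rw [h9]
      have h10 : (0 : ℝ) ≤ x * m := by positivity
      have h11 : (0 : ℝ) ≤ E := Nat.cast_nonneg E
      -- (E+2)(E+1) ≥ (x m + x - 1)(x m + x - 2)
      have h12 : (x * m + x - 1) * (x * m + x - 2) ≤ ((E : ℝ) + 2) * (E + 1) := by
        apply mul_le_mul <;> nlinarith
      have h13 : (x * m) * (x * (m + 1)) ≤ (x * m + x - 1) * (x * m + x - 2) := by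
        have h14 : (3 : ℝ) * 1 ≤ x * m := mul_le_mul hs3.le hm1 (by norm_num) (by linarith)
        nlinarith
      have h15 : ((E : ℝ) + 1 + 1) * (E + 1) / 2 = ((E : ℝ) + 2) * (E + 1) / 2 := by ring
      rw [h15]
      linarith
    exact_mod_cast h5
  omega

end Pool.Agent.TH749.PJ
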