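import Pool.Agent.TH749.PJ.Stm
import Pool.Agent.H248R5.Tay

/-!
From surjectivity of the evaluation map in the plane to separation of jets.
-/

set_option autoImplicit false

namespace Pool.Agent.TH749.PJ

open MvPolynomial Pool.Agent.W607 H248R5

/-- cyclic change of the coordinates -/
noncomputable def cy : MvPolynomial (Fin 3) ℂ →ₐ[ℂ] MvPolynomial (Fin (2 + 1)) ℂ :=
  aeval ![X 1, X 2, X 0]

noncomputable def cy' : MvPolynomial (Fin (2 + 1)) ℂ →ₐ[ℂ] MvPolynomial (Fin 3) ℂ :=
  aeval ![X 2, X 0, X 1]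

theorem cy_X0 : cy (X 0) = X 1 := by simp [cy]
theorem cy_X1 : cy (X 1) = X 2 := by simp [cy]
theorem cy_X2 : cy (X 2) = X 0 := by simp [cy]
theorem cy_C (c : ℂ) : cy (C c) = C c := algHom_C cy c
theorem cy'_X0 : cy' (X 0) = X 2 := by simp [cy']
theorem cy'_X1 : cy' (X 1) = X 0 := by simp [cy']
theorem cy'_X2 : cy' (X 2) = X 1 := by simp [cy']

theorem cy_cy' (f : MvPolynomial (Fin (2 + 1)) ℂ) : cy (cy' f) = f := by
  have h : cy.comp cy' = AlgHom.id ℂ _ := by
    apply MvPolynomial.algHom_ext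
    intro i
    rw [AlgHom.comp_apply, AlgHom.id_apply]
    fin_cases i
    · show cy (cy' (X 0)) = X 0
      rw [cy'_X0, cy_X2]
    · show cy (cy' (X 1)) = X 1
      rw [cy'_X1, cy_X0]
    · show cy (cy' (X 2)) = X 2
      rw [cy'_X2, cy_X1]
  exact DFunLike.congr_fun h f

theorem cy_hom {G : MvPolynomial (Fin 3) ℂ} {e : ℕ} (hG : G.IsHomogeneous e) :
    (cy G).IsHomogeneous e := by
  have h1 := hG.aeval (![X 1, X 2, X 0] : Fin 3 → MvPolynomial (Fin (2 + 1)) ℂ) (n := 1)
    (by intro i; fin_cases i <;> exact isHomogeneous_X _ _)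
  rw [one_mul] at h1
  exact h1

theorem sep_of_surj {n m E : ℕ} {P : Fin n → Fin 2 → ℂ}
    (h : Function.Surjective (ev (fun _ : Fin n => m) P E)) :
    Sep (⊥ : Ideal (MvPolynomial (Fin (2 + 1)) ℂ)) (X 0) E m (fun i => ![1, P i 0, P i 1]) := by
  classical
  have key : ∀ (i : Fin n) (G : MvPolynomial (Fin 3) ℂ),
      tau (P i) G ∈ (idealOfVars (Fin 2) ℂ) ^ m →
      cy G ∈ (⊥ : Ideal (MvPolynomial (Fin (2 + 1)) ℂ)) ⊔ Ideal.span {X 0 - 1} ⊔
        (mw (![1, P i 0, P i 1] : Fin (2 + 1) → ℂ)) ^ m := by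
    intro i G hG
    let σ : MvPolynomial (Fin 2) ℂ →ₐ[ℂ] MvPolynomial (Fin (2 + 1)) ℂ :=
      aeval ![X 1 - C (P i 0), X 2 - C (P i 1)]
    have hσ0 : σ (X 0) = X 1 - C (P i 0) := by simp [σ]
    have hσ1 : σ (X 1) = X 2 - C (P i 1) := by simp [σ]
    have hσC : ∀ c, σ (C c) = C c := fun c => algHom_C σ c
    have hA : idealOfVars (Fin 2) ℂ ≤
        (mw (![1, P i 0, P i 1] : Fin (2 + 1) → ℂ)).comap σ := by
      rw [idealOfVars, Ideal.span_le]
      rintro _ ⟨j, rfl⟩
      rw [SetLike.mem_coe, Ideal.mem_comap]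
      fin_cases j
      · show σ (X 0) ∈ _
        rw [hσ0]
        exact Ideal.subset_span ⟨1, rfl⟩
      · show σ (X 1) ∈ _
        rw [hσ1]
        exact Ideal.subset_span ⟨2, rfl⟩
    have hA' : σ (tau (P i) G) ∈ (mw (![1, P i 0, P i 1] : Fin (2 + 1) → ℂ)) ^ m :=
      ((Ideal.pow_right_mono hA m).trans (Ideal.le_comap_pow _ m)) hG
    have hB : ∀ H : MvPolynomial (Fin 3) ℂ, cy H - σ (tau (P i) H) ∈
        Ideal.span {(X 0 - 1 : MvPolynomial (Fin (2 + 1)) ℂ)} := by
      intro H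
      induction H using MvPolynomial.induction_on with
      | C c => rw [cy_C, tau_C, hσC, sub_self]; exact zero_mem _
      | add p q hp hq =>
        have h1 : cy (p + q) - σ (tau (P i) (p + q)) =
            (cy p - σ (tau (P i) p)) + (cy q - σ (tau (P i) q)) := by
          rw [map_add, map_add, map_add]; ring
        rw [h1]
        exact add_mem hp hq
      | mul_X p j hp =>
        have h1 : cy (p * X j) - σ (tau (P i) (p * X j)) =
            (cy p - σ (tau (P i) p)) * cy (X j) +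
              σ (tau (P i) p) * (cy (X j) - σ (tau (P i) (X j))) := by
          rw [map_mul, map_mul, map_mul]; ring
        have h2 : cy (X j) - σ (tau (P i) (X j)) ∈
            Ideal.span {(X 0 - 1 : MvPolynomial (Fin (2 + 1)) ℂ)} := by
          fin_cases j
          · show cy (X 0) - σ (tau (P i) (X 0)) ∈ _
            rw [cy_X0, tau_X0, map_add, hσ0, hσC, sub_add_cancel, sub_self]
            exact zero_mem _
          · show cy (X 1) - σ (tau (P i) (X 1)) ∈ _
            rw [cy_X1, tau_X1, map_add, hσ1, hσC, sub_add_cancel, sub_self]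
            exact zero_mem _
          · show cy (X 2) - σ (tau (P i) (X 2)) ∈ _
            rw [cy_X2, tau_X2, map_one]
            exact Ideal.mem_span_singleton_self _
        rw [h1]
        exact add_mem (Ideal.mul_mem_right _ _ hp) (Ideal.mul_mem_left _ _ h2)
    have h3 : cy G = (cy G - σ (tau (P i) G)) + σ (tau (P i) G) := by ring
    rw [h3]
    exact add_mem (Ideal.mem_sup_left (Ideal.mem_sup_right (hB G))) (Ideal.mem_sup_right hA')
  intro q f
  obtain ⟨⟨G, hG0⟩, hG⟩ := h (fun i => Ideal.Quotient.mk _ (if i = q then tau (P q) (cy' f) else 0))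
  refine ⟨cy G, cy_hom ((mem_homogeneousSubmodule _ _).1 hG0), ?_, fun q' hq' => ?_⟩
  · have h1 := congrFun hG q
    rw [ev_apply, if_pos rfl, Ideal.Quotient.eq, ← map_sub] at h1
    have h2 := key q _ h1
    rw [map_sub, cy_cy'] at h2
    exact h2
  · have h1 := congrFun hG q'
    rw [ev_apply, if_neg hq', Ideal.Quotient.eq, sub_zero] at h1
    exact key q' _ h1

end Pool.Agent.TH749.PJ
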