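import Mathlib
import Pool.Agent.W607.OpenSep

/-!
Fat points on a surface of degree `d` in `P³` over `n` general points of the plane: statements.
-/

set_option autoImplicit false

namespace Pool.Agent.TH749.PJ

open MvPolynomial Pool.Agent.W607

/-- (P1) independence in the plane at `n ≥ 10` general points, with a bounded loss. -/
def S_P1 : Prop := ∀ (n m E : ℕ), 10 ≤ n → √(n : ℝ) * (m + 1) < E + 3 →
  ∃ Φ : MvPolynomial (Fin n × Fin 2) ℂ, Φ ≠ 0 ∧ ∀ P : Fin n → Fin 2 → ℂ,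
    eval (fun q => P q.1 q.2) Φ ≠ 0 →
    Sep (⊥ : Ideal (MvPolynomial (Fin (2 + 1)) ℂ)) (X 0) E m (fun i => ![1, P i 0, P i 1])

/-- (P2) distinct roots over a general point of the plane. -/
def S_P2 : Prop := ∀ (d : ℕ) (F : MvPolynomial (Fin (3 + 1)) ℂ), 1 ≤ d → F.IsHomogeneous d →
  Irreducible F → eval ![0, 0, 0, 1] F ≠ 0 →
  ∃ Ψ : MvPolynomial (Fin 2) ℂ, Ψ ≠ 0 ∧ ∀ a b : ℂ, eval ![a, b] Ψ ≠ 0 →
    ∃ t : Fin d → ℂ, Function.Injective t ∧ ∀ j, eval ![1, a, b, t j] F = 0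

/-- (P3) lifting of separation of jets along the projection from `(0 : 0 : 0 : 1)`. -/
def S_P3 : Prop := ∀ (d n E s : ℕ) (F : MvPolynomial (Fin (3 + 1)) ℂ), 1 ≤ d →
  F.IsHomogeneous d → eval ![0, 0, 0, 1] F ≠ 0 → ∀ P : Fin n → Fin 2 → ℂ,
  Function.Injective P →
  Sep (⊥ : Ideal (MvPolynomial (Fin (2 + 1)) ℂ)) (X 0) E s (fun i => ![1, P i 0, P i 1]) →
  ∀ t : Fin n → Fin d → ℂ, (∀ i, Function.Injective (t i)) →
  (∀ i j, eval ![1, P i 0, P i 1, t i j] F = 0) →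
  Sep (Ideal.span {F}) (X 0) (E + d - 1) s (fun q : Fin (n * d) =>
    ![1, P (finProdFinEquiv.symm q).1 0, P (finProdFinEquiv.symm q).1 1,
      t (finProdFinEquiv.symm q).1 (finProdFinEquiv.symm q).2])

end Pool.Agent.TH749.PJ
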